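import Pool.Agent.TH454.BW.Unit

/-!
# Unit distances of planar point sets given by decision diagrams of small width

The points are named by the `n = 2 ^ m` strings of `m` bits, in any way. If an ordered binary
decision diagram with at most `w` nodes at each level, reading the `2 m` bits of two names once each
in some fixed order, decides whether two points have distance `1`, then there are at most
`2 w n log₂ n` unit distances. For bounded `w` this is the order of the known lower bound: for each
`m` there are `2 ^ m` points, no three on a line, with at least `(n log₂ n) / 2` unit distances and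
a diagram of width `9`. So, within the sets given by diagrams of bounded width, the answer to the
question is no.
-/

set_option autoImplicit false

namespace Pool.Agent.Results.MP_05df08_co.DecisionDiagrams

open Pool.Agent.H607R2.BW Pool.Agent.TH454.BW

theorem result :
    -- (1) nondeterministic decision diagrams with at most `β` edges at each level
    (∀ (m β : ℕ) (P : Str m → EuclideanSpace ℝ (Fin 2)), Function.Injective P →
      HasNObdd β (fun x : Fin 2 → Str m => (unitGraph P).Adj (x 0) (x 1)) →
      Nat.card (unitGraph P).edgeSet ≤ β * m * 2 ^ m) ∧
    -- (2) decision diagrams with at most `w` nodes at each level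
    (∀ (m w : ℕ) (P : Str m → EuclideanSpace ℝ (Fin 2)), Function.Injective P →
      ObddWidth w (fun x : Fin 2 → Str m => (unitGraph P).Adj (x 0) (x 1)) →
      Nat.card (unitGraph P).edgeSet ≤ 2 * (w * m * 2 ^ m)) ∧
    -- (3) for bounded width the order `n log n` is attained without three points on a line
    (∀ m : ℕ, ∃ P : Str m → EuclideanSpace ℝ (Fin 2), Function.Injective P ∧
      (∀ x y z : Str m, x ≠ y → x ≠ z → y ≠ z →
        ¬ Collinear ℝ ({P x, P y, P z} : Set (EuclideanSpace ℝ (Fin 2)))) ∧
      ObddWidth 9 (fun x : Fin 2 → Str m => (unitGraph P).Adj (x 0) (x 1)) ∧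
      m * 2 ^ m ≤ 2 * Nat.card (unitGraph P).edgeSet) :=
  ⟨unit_nobdd, unit_obdd, unit_sharp⟩

end Pool.Agent.Results.MP_05df08_co.DecisionDiagrams
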